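import Pool.Agent.Helper60.T3.GoalsE
import Pool.Agent.Helper2.SGT.NQR
import Pool.Agent.Helper65.SG.Tay
import Pool.Agent.Helper73.SGT.FRPO
import Pool.Agent.Helper62.SGB.EPHI

/-!
# Project T3 (MP_a41896_nt), packet T3-HTF: heights of derivatives and of the slope polynomials
-/

set_option autoImplicit false
set_option linter.unusedSectionVars false

open MvPolynomial

namespace Pool.Agent.Helper66.T3.HTF

open WeierstrassCurve Height Height.AdmissibleAbsValues
open Pool.Agent.Helper29.BL Pool.Agent.Helper92.Ru Pool.Agent.Helper42.SG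
open Pool.Agent.Helper65.SG Pool.Agent.Helper2.SGT
open Pool.Agent.Helper60.T3
open Pool.Agent.Helper62.SGB (plc_pos plc_one plc_mul plc_cst plc_Mv)

noncomputable section

theorem frpo : FRPO := Pool.Agent.Helper73.SGT.t_FRPO t_FRPS

section frame

variable {K : Type} [Field K] {v : AbsoluteValue K ℝ} {A : Type} [CommRing A] [Algebra K A]
  {N : A → ℝ → Prop}

/-- a sum of terms with the same bound -/
theorem nf_sum_cst (h : NFr v N) {ι : Type} (s : Finset ι) (f : ι → A) (T c : ℝ) (hT : 0 ≤ T)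
    (hc : (s.card : ℝ) ≤ c) (hf : ∀ i ∈ s, N (f i) T) : N (∑ i ∈ s, f i) (cst v c * T) := by
  by_cases hv : IsNonarchimedean v
  · rw [cst_of_nonarch hv, one_mul]
    exact nf_sum_max h hv s f T hT hf
  · rw [cst_of_not_nonarch hv]
    refine h.mono _ _ _ (nf_sum h s f (fun _ => T) hf) ?_
    rw [Finset.sum_const, nsmul_eq_mul]
    exact mul_le_mul_of_nonneg_right hc hT

theorem nf_add_cst (h : NFr v N) {f g : A} {T : ℝ} (hf : N f T) (hg : N g T) :
    N (f + g) (cst v 2 * T) := by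
  by_cases hv : IsNonarchimedean v
  · rw [cst_of_nonarch hv, one_mul]
    have := h.max hv _ _ _ _ hf hg
    rwa [max_self] at this
  · rw [cst_of_not_nonarch hv, two_mul]
    exact h.add _ _ _ _ hf hg

theorem nf_neg (h : NFr v N) {f : A} {T : ℝ} (hf : N f T) : N (-f) T := by
  have h1 := h.mul _ _ _ _ (h.const (-1)) hf
  rw [map_neg, map_one, neg_one_mul, v.map_neg, v.map_one, one_mul] at h1
  exact h1

theorem nf_sub_cst (h : NFr v N) {f g : A} {T : ℝ} (hf : N f T) (hg : N g T) :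
    N (f - g) (cst v 2 * T) := by
  rw [sub_eq_add_neg]
  exact nf_add_cst h hf (nf_neg h hg)

theorem v_nat_cst (v : AbsoluteValue K ℝ) (n D : ℕ) (hn : n ≤ D) : v (n : K) ≤ cst v (D + 1) := by
  by_cases hv : IsNonarchimedean v
  · rw [cst_of_nonarch hv]
    exact hv.apply_natCast_le_one
  · rw [cst_of_not_nonarch hv]
    refine (v_nat v n).trans ?_
    have : (n : ℝ) ≤ D := by exact_mod_cast hn
    linarith

end frame

section poly

variable {K : Type} [Field K] [NumberField K] {σ : Type} [Fintype σ] [DecidableEq σ]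

/-- every polynomial has a place constant as norm -/
theorem fixed (g : MvPolynomial σ K) : ∃ B : AbsoluteValue K ℝ → ℝ, PlC B ∧ ∀ v, NPol v g (B v) := by
  induction g using MvPolynomial.induction_on with
  | C a =>
    refine ⟨fun v => Mv v a, plc_Mv a, fun v => ?_⟩
    obtain ⟨hN, -, -⟩ := frpo K v σ
    have h1 := hN.const a
    rw [MvPolynomial.algebraMap_eq] at h1
    exact hN.mono _ _ _ h1 (le_max_right _ _)
  | add p q hp hq =>
    obtain ⟨B, hB, h1⟩ := hp
    obtain ⟨B', hB', h2⟩ := hq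
    refine ⟨fun v => cst v 2 * (B v * B' v), plc_mul (plc_cst (by norm_num)) (plc_mul hB hB'),
      fun v => ?_⟩
    obtain ⟨hN, -, -⟩ := frpo K v σ
    refine nf_add_cst hN (hN.mono _ _ _ (h1 v) ?_) (hN.mono _ _ _ (h2 v) ?_)
    · exact le_mul_of_one_le_right (plc_pos hB v).le (hB'.one_le v)
    · exact le_mul_of_one_le_left (plc_pos hB' v).le (hB.one_le v)
  | mul_X p i hp =>
    obtain ⟨B, hB, h1⟩ := hp
    refine ⟨B, hB, fun v => ?_⟩
    obtain ⟨hN, hX, -⟩ := frpo K v σ
    have h2 := hN.mul _ _ _ _ (h1 v) (hX i)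
    rwa [mul_one] at h2

theorem card_supp (g : MvPolynomial σ K) (D0 : ℕ)
    (hg : ∀ i, g.degreeOf i ≤ D0) : g.support.card ≤ (D0 + 1) ^ Fintype.card σ := by
  have h1 : g.support.card ≤ (Fintype.piFinset fun _ : σ => Finset.range (D0 + 1)).card := by
    refine Finset.card_le_card_of_injOn (fun s i => s i) ?_ ?_
    · intro s hs
      rw [Finset.mem_coe, Fintype.mem_piFinset]
      intro i
      rw [Finset.mem_range]
      exact Nat.lt_succ_of_le ((monomial_le_degreeOf i hs).trans (hg i))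
    · intro s _ t _ h
      exact DFunLike.coe_injective h
  rw [Fintype.card_piFinset] at h1
  simpa using h1

theorem nf_monomial {v : AbsoluteValue K ℝ} (s : σ →₀ ℕ) (a : K) :
    NPol v (monomial s a : MvPolynomial σ K) (v a) := by
  obtain ⟨hN, hX, -⟩ := frpo K v σ
  rw [monomial_eq, Finsupp.prod_fintype _ _ (fun i => pow_zero _)]
  have h1 := hN.const a
  rw [MvPolynomial.algebraMap_eq] at h1
  have h2 := nf_prod hN Finset.univ (fun i : σ => (X i : MvPolynomial σ K) ^ s i)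
    (fun _ => 1) (fun i _ => by
      have := nf_pow hN (hX i) (s i)
      rwa [one_pow] at this)
  rw [Finset.prod_const_one] at h2
  have h3 := hN.mul _ _ _ _ h1 h2
  rwa [mul_one] at h3

theorem pderiv_sum (i : σ) (h : MvPolynomial σ K) :
    pderiv i h = ∑ s ∈ h.support, monomial (s - Finsupp.single i 1) (coeff s h * (s i : K)) := by
  conv_lhs => rw [h.as_sum, map_sum]
  exact Finset.sum_congr rfl fun s _ => pderiv_monomial

theorem deg_pderiv (i l : σ) (h : MvPolynomial σ K) : (pderiv i h).degreeOf l ≤ h.degreeOf l := by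
  rw [pderiv_sum]
  refine (degreeOf_sum_le _ _ _).trans (Finset.sup_le fun s hs => ?_)
  by_cases h0 : coeff s h * (s i : K) = 0
  · rw [h0, monomial_zero, degreeOf_zero]
    exact Nat.zero_le _
  · rw [degreeOf_monomial_eq _ _ h0]
    refine le_trans ?_ (monomial_le_degreeOf l hs)
    rw [Finsupp.tsub_apply]
    exact Nat.sub_le _ _

theorem deg_aeval (i l : σ) (q : Polynomial K) :
    (Polynomial.aeval (X i : MvPolynomial σ K) q).degreeOf l ≤ q.natDegree := by
  rw [Polynomial.aeval_eq_sum_range]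
  refine (degreeOf_sum_le _ _ _).trans (Finset.sup_le fun k hk => ?_)
  rw [smul_eq_C_mul]
  refine (degreeOf_C_mul_le _ _ _).trans ((degreeOf_pow_le _ _ _).trans ?_)
  have h1 : degreeOf l (X i : MvPolynomial σ K) ≤ 1 := by
    rw [degreeOf_X]
    split_ifs <;> omega
  have h2 := Finset.mem_range.1 hk
  nlinarith

theorem deg_gsl (W : σ → Affine K) (n : σ → K) (h : MvPolynomial σ K) (i k l : σ) (D : ℕ)
    (hD : ∀ l, h.degreeOf l ≤ D) : (gsl W n h i k).degreeOf l ≤ 2 * D + 3 := by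
  have hb : ∀ i, (bch W (fun _ => true) i).natDegree ≤ 3 := by
    intro i
    unfold bch
    rw [if_pos rfl]
    compute_degree
  have h1 : ∀ (c : K) (i : σ), degreeOf l (C c * (Polynomial.aeval (X i)
      (bch W (fun _ => true) i) * pderiv i h ^ 2)) ≤ 2 * D + 3 := by
    intro c i
    refine (degreeOf_C_mul_le _ _ _).trans ((degreeOf_mul_le _ _ _).trans ?_)
    have h2 := (deg_aeval i l (bch W (fun _ => true) i)).trans (hb i)
    have h3 := degreeOf_pow_le l (pderiv i h) 2
    have h4 := (deg_pderiv i l h).trans (hD l)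
    omega
  unfold gsl
  exact (degreeOf_sub_le _ _ _).trans (max_le (h1 _ _) (h1 _ _))

/-- the norm of a derivative -/
theorem nf_pderiv {v : AbsoluteValue K ℝ} (i : σ) (h : MvPolynomial σ K) (D : ℕ) (T : ℝ)
    (hD : ∀ l, h.degreeOf l ≤ D) (hT : ∀ m, v (coeff m h) ≤ T) :
    NPol v (pderiv i h) (cst v (((D + 1 : ℕ) : ℝ) ^ Fintype.card σ) * (T * cst v (D + 1))) := by
  obtain ⟨hN, hX, -⟩ := frpo K v σ
  have hT0 : 0 ≤ T := (v.nonneg _).trans (hT 0)
  have hc0 : 0 < cst v ((D : ℝ) + 1) := cst_pos v (by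
    have : (0 : ℝ) ≤ D := Nat.cast_nonneg D
    linarith)
  rw [pderiv_sum]
  refine nf_sum_cst hN _ _ _ _ (mul_nonneg hT0 hc0.le) ?_ fun s hs => ?_
  · exact_mod_cast card_supp h D hD
  · refine hN.mono _ _ _ (nf_monomial _ _) ?_
    rw [map_mul]
    exact mul_le_mul (hT s) (v_nat_cst v _ _ ((monomial_le_degreeOf i hs).trans (hD i)))
      (v.nonneg _) hT0

end poly

theorem t (hMC : S_MC) : S_HTF := by
  intro K _ _ σ _ _ W D n
  obtain ⟨hM1, hM0, hM2, hM3⟩ := hMC K σ
  -- the place constants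
  have hmain : ∀ i k : σ, ∃ B : AbsoluteValue K ℝ → ℝ, PlC B ∧ ∀ (v : AbsoluteValue K ℝ)
      (h : MvPolynomial σ K), (∀ l, h.degreeOf l ≤ D) → 1 ≤ mc v h →
      NPol v (pderiv i h) (B v * mc v h ^ 2) ∧ NPol v (gsl W n h i k) (B v * mc v h ^ 2) := by
    intro i k
    obtain ⟨B1, hB1, h1⟩ := fixed (Polynomial.aeval (X i : MvPolynomial σ K)
      (bch W (fun _ => true) i))
    obtain ⟨B2, hB2, h2⟩ := fixed (Polynomial.aeval (X k : MvPolynomial σ K)
      (bch W (fun _ => true) k))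
    have hD1 : (1 : ℝ) ≤ (D : ℝ) + 1 := by
      have : (0 : ℝ) ≤ D := Nat.cast_nonneg D
      linarith
    have hD2 : (1 : ℝ) ≤ ((D + 1 : ℕ) : ℝ) ^ Fintype.card σ := one_le_pow₀ (by
      push_cast
      exact hD1)
    set Q : AbsoluteValue K ℝ → ℝ := fun v =>
      cst v (((D + 1 : ℕ) : ℝ) ^ Fintype.card σ) * cst v (D + 1) with hQ
    have hQp : PlC Q := plc_mul (plc_cst hD2) (plc_cst hD1)
    set B : AbsoluteValue K ℝ → ℝ := fun v => cst v 2 * ((Mv v (n i) * Mv v (n k)) *
      (B1 v * B2 v) * (Q v * Q v)) with hB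
    have hBp : PlC B := plc_mul (plc_cst (by norm_num)) (plc_mul (plc_mul (plc_mul (plc_Mv _)
      (plc_Mv _)) (plc_mul hB1 hB2)) (plc_mul hQp hQp))
    refine ⟨B, hBp, fun v h hD hm => ?_⟩
    obtain ⟨hN, hX, -⟩ := frpo K v σ
    have hd : ∀ i, NPol v (pderiv i h) (Q v * mc v h) := by
      intro i
      refine hN.mono _ _ _ (nf_pderiv i h D (mc v h) hD (fun m => hM0 v h m)) (le_of_eq ?_)
      rw [hQ]
      ring
    have c2 : 1 ≤ cst v (2 : ℝ) := one_le_cst v (by norm_num)
    have m1 : 1 ≤ Mv v (n i) := one_le_Mv v _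
    have m2 : 1 ≤ Mv v (n k) := one_le_Mv v _
    have b1 : 1 ≤ B1 v := hB1.one_le v
    have b2 : 1 ≤ B2 v := hB2.one_le v
    have q1 : 1 ≤ Q v := hQp.one_le v
    have e1 : ∀ a b c d : ℝ, 1 ≤ a → 1 ≤ b → 1 ≤ c → 1 ≤ d → 1 ≤ a * b * (c * d) := fun a b c d ha hb
      hc hd => one_le_mul_of_one_le_of_one_le (one_le_mul_of_one_le_of_one_le ha hb)
        (one_le_mul_of_one_le_of_one_le hc hd)
    have hmc0 : 0 ≤ mc v h := zero_le_one.trans hm
    constructor
    · refine hN.mono _ _ _ (hd i) ?_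
      have f1 : 1 ≤ cst v (2 : ℝ) * ((Mv v (n i) * Mv v (n k)) * (B1 v * B2 v) * Q v) :=
        one_le_mul_of_one_le_of_one_le c2 (one_le_mul_of_one_le_of_one_le
          (e1 _ _ _ _ m1 m2 b1 b2) q1)
      have f2 : 1 ≤ cst v (2 : ℝ) * ((Mv v (n i) * Mv v (n k)) * (B1 v * B2 v) * Q v) * mc v h :=
        one_le_mul_of_one_le_of_one_le f1 hm
      have f3 : 0 ≤ Q v * mc v h := mul_nonneg (zero_le_one.trans q1) hmc0
      calc Q v * mc v h ≤ (Q v * mc v h) * (cst v (2 : ℝ) *
            ((Mv v (n i) * Mv v (n k)) * (B1 v * B2 v) * Q v) * mc v h) :=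
            le_mul_of_one_le_right f3 f2
        _ = _ := by rw [hB]; ring
    · have g1 : ∀ j, NPol v (pderiv j h ^ 2) ((Q v * mc v h) ^ 2) := fun j => nf_pow hN (hd j) 2
      have g2 : ∀ c : K, NPol v (C c : MvPolynomial σ K) (Mv v c) := by
        intro c
        have h1 := hN.const c
        rw [MvPolynomial.algebraMap_eq] at h1
        exact hN.mono _ _ _ h1 (le_max_right _ _)
      have g3 : NPol v (C (n k) * (Polynomial.aeval (X i) (bch W (fun _ => true) i) *
          pderiv i h ^ 2)) (Mv v (n k) * (B1 v * (Q v * mc v h) ^ 2)) :=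
        hN.mul _ _ _ _ (g2 _) (hN.mul _ _ _ _ (h1 v) (g1 i))
      have g4 : NPol v (C (n i) * (Polynomial.aeval (X k) (bch W (fun _ => true) k) *
          pderiv k h ^ 2)) (Mv v (n i) * (B2 v * (Q v * mc v h) ^ 2)) :=
        hN.mul _ _ _ _ (g2 _) (hN.mul _ _ _ _ (h2 v) (g1 k))
      have z : 0 ≤ (Q v * mc v h) ^ 2 := sq_nonneg _
      have k1 : Mv v (n k) * (B1 v * (Q v * mc v h) ^ 2) ≤
          (Mv v (n i) * Mv v (n k)) * (B1 v * B2 v) * (Q v * mc v h) ^ 2 := by
        have : 0 ≤ Mv v (n k) * (B1 v * (Q v * mc v h) ^ 2) := by positivity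
        calc _ ≤ (Mv v (n k) * (B1 v * (Q v * mc v h) ^ 2)) * (Mv v (n i) * B2 v) :=
              le_mul_of_one_le_right this (one_le_mul_of_one_le_of_one_le m1 b2)
          _ = _ := by ring
      have k2 : Mv v (n i) * (B2 v * (Q v * mc v h) ^ 2) ≤
          (Mv v (n i) * Mv v (n k)) * (B1 v * B2 v) * (Q v * mc v h) ^ 2 := by
        have : 0 ≤ Mv v (n i) * (B2 v * (Q v * mc v h) ^ 2) := by positivity
        calc _ ≤ (Mv v (n i) * (B2 v * (Q v * mc v h) ^ 2)) * (Mv v (n k) * B1 v) :=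
              le_mul_of_one_le_right this (one_le_mul_of_one_le_of_one_le m2 b1)
          _ = _ := by ring
      have g5 := nf_sub_cst hN (hN.mono _ _ _ g3 k1) (hN.mono _ _ _ g4 k2)
      refine hN.mono _ _ _ g5 (le_of_eq ?_)
      rw [hB]
      ring
  choose B hB hNB using hmain
  have hPS0 : ∀ i k, 0 ≤ PS (fun v => Real.log (B i k v)) := fun i k =>
    PS_nonneg (hB i k).fin fun v => Real.log_nonneg ((hB i k).one_le v)
  refine ⟨∑ i, ∑ k, PS (fun v => Real.log (B i k v)) + 2, ?_, ?_⟩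
  · have : 0 ≤ ∑ i, ∑ k, PS (fun v => Real.log (B i k v)) :=
      Finset.sum_nonneg fun i _ => Finset.sum_nonneg fun k _ => hPS0 i k
    linarith
  intro h h0 hD i k
  obtain ⟨mh, hmh⟩ := MvPolynomial.ne_zero_iff.1 h0
  set c : K := (coeff mh h)⁻¹ with hc
  have hc0 : c ≠ 0 := inv_ne_zero hmh
  set q : MvPolynomial σ K := C c * h with hq
  have hq1 : ∃ m, coeff m q = 1 := ⟨mh, by rw [hq, coeff_C_mul, hc, inv_mul_cancel₀ hmh]⟩
  have hqD : ∀ l, q.degreeOf l ≤ D := fun l => (degreeOf_C_mul_le _ _ _).trans (hD l)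
  obtain ⟨hq2, hq3, -⟩ := hM1 q hq1
  have hPq : PH q = PH h := hM3 _ _ hc0
  have hfin : ∀ R : MvPolynomial σ K, R ≠ 0 → (∀ v, NPol v R (B i k v * mc v q ^ 2)) →
      Real.log (PH R) ≤ (∑ i, ∑ k, PS (fun v => Real.log (B i k v)) + 2) *
        (1 + Real.log (PH h)) := by
    intro R hR0 hR
    have hpos1 : ∀ v : AbsoluteValue K ℝ, 0 < mc v q := fun v => one_pos.trans_le (hq2.one_le v)
    have hpos2 : ∀ v : AbsoluteValue K ℝ, 0 < B i k v := fun v => plc_pos (hB i k) v
    have hlog : ∀ v : AbsoluteValue K ℝ, Real.log (B i k v * mc v q ^ 2) =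
        Real.log (B i k v) + 2 * Real.log (mc v q) := by
      intro v
      rw [Real.log_mul (hpos2 v).ne' (pow_pos (hpos1 v) _).ne', Real.log_pow]
      norm_num
    have hFS : FS fun v : AbsoluteValue K ℝ => 2 * Real.log (mc v q) := hq2.fin.const_mul _
    have hS : PlC (fun v : AbsoluteValue K ℝ => B i k v * mc v q ^ 2) := by
      refine ⟨fun v => one_le_mul_of_one_le_of_one_le ((hB i k).one_le v)
        (one_le_pow₀ (hq2.one_le v)), ?_⟩
      simp only [hlog]
      exact (hB i k).fin.add hFS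
    have h1 := hM2 R _ hR0 hS fun v m => (frpo K v σ).2.2 _ _ m (hR v)
    simp only [hlog] at h1
    rw [PS_add (hB i k).fin hFS, PS_const_mul, hq3, hPq] at h1
    have h2 : 0 ≤ Real.log (PH h) := by
      rw [← hPq, ← hq3]
      exact PS_nonneg hq2.fin fun v => Real.log_nonneg (hq2.one_le v)
    have h3 : PS (fun v => Real.log (B i k v)) ≤ ∑ i, ∑ k, PS (fun v => Real.log (B i k v)) := by
      refine le_trans ?_ (Finset.single_le_sum (f := fun i => ∑ k, PS (fun v =>
        Real.log (B i k v))) (fun i _ => Finset.sum_nonneg fun k _ => hPS0 i k)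
        (Finset.mem_univ i))
      exact Finset.single_le_sum (f := fun k => PS (fun v => Real.log (B i k v)))
        (fun k _ => hPS0 i k) (Finset.mem_univ k)
    have h4 : 0 ≤ ∑ i, ∑ k, PS (fun v => Real.log (B i k v)) :=
      Finset.sum_nonneg fun i _ => Finset.sum_nonneg fun k _ => hPS0 i k
    nlinarith [mul_nonneg h4 h2]
  constructor
  · intro hp
    refine ⟨fun l => (deg_pderiv i l h).trans (hD l), ?_⟩
    have h1 : pderiv i q = C c * pderiv i h := by rw [hq, pderiv_C_mul]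
    rw [← hM3 c (pderiv i h) hc0, ← h1]
    refine hfin _ ?_ fun v => (hNB i k v q hqD (hq2.one_le v)).1
    rw [h1]
    exact mul_ne_zero (by rwa [Ne, C_eq_zero]) hp
  · intro hg
    refine ⟨fun l => deg_gsl W n h i k l D hD, ?_⟩
    have h1 : gsl W n q i k = C (c ^ 2) * gsl W n h i k := by
      unfold gsl
      rw [hq, pderiv_C_mul, pderiv_C_mul, map_pow]
      ring
    rw [← hM3 (c ^ 2) (gsl W n h i k) (pow_ne_zero 2 hc0), ← h1]
    refine hfin _ ?_ fun v => (hNB i k v q hqD (hq2.one_le v)).2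
    rw [h1]
    exact mul_ne_zero (by rw [Ne, C_eq_zero]; exact pow_ne_zero 2 hc0) hg

end

end Pool.Agent.Helper66.T3.HTF
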