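import Pool.Agent.Helper68.T3.GoalsT
import Pool.Agent.Helper31.VN.LOCB

/-!
# Project T3 (MP_a41896_nt), packet PG-LOC3: the local estimate

Adapted from `Pool/Agent/Helper31/VN/LOCB.lean` (helper31), itself from `Pool/Agent/Helper56/SG2/LOCT.lean` (helper56).
-/

set_option autoImplicit false

open MvPolynomial

namespace Pool.Agent.Helper66.T3.LOC3

open WeierstrassCurve Height
open Pool.Agent.Helper29.BL Pool.Agent.Helper92.Ru Pool.Agent.Helper42.SG
open Pool.Agent.Helper68.VN Pool.Agent.Helper68.T3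
open Pool.Agent.Helper56.SG2 (plc_pos plc_one plc_mul plc_pow)
open Pool.Agent.Helper31.VN.LOCB (all_blk Bf_map)

/-- cancellation of the leading coefficient -/
theorem cancel {K : Type} [Field K] {σ τ : Type} (X : σ → MvPowerSeries τ K) (ξ : σ → K)
    (a0 : MvPolynomial σ K) (hX : ∀ i, MvPowerSeries.constantCoeff (X i) = ξ i)
    (h : eval ξ a0 ≠ 0) (y : MvPowerSeries τ K) (hy : aeval X a0 * y = 0) : y = 0 := by
  have h1 : MvPowerSeries.constantCoeff (aeval X a0) = eval ξ a0 := by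
    rw [MvPolynomial.map_aeval]
    have h2 : (fun i => MvPowerSeries.constantCoeff (X i)) = ξ := funext hX
    rw [h2]
    have h3 : (MvPowerSeries.constantCoeff (σ := τ) (R := K)).comp
        (algebraMap K (MvPowerSeries τ K)) = RingHom.id K := by
      ext c
      rw [RingHom.comp_apply, MvPowerSeries.algebraMap_apply, MvPowerSeries.constantCoeff_C]
      rfl
    rw [h3]
    rfl
  rcases mul_eq_zero.1 hy with h4 | h4
  · exact absurd (by rw [← h1, h4, map_zero]) h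
  · exact h4

/-- **LOC3** -/
theorem t_LOC3 (hF : FRPS) : Pool.Agent.Helper68.T3.LOC3 := by
  intro K _ _ σ _ _ W J f D M k0 B B' B'' hB hB' hB''
  refine ⟨fun v => B v * ((B' v ^ (2 * M + 3) * B'' v ^ M) ^ Fintype.card σ *
    B' v ^ (2 * Fintype.card σ)), ?_, ?_⟩
  · exact plc_mul hB (plc_mul (plc_pow (plc_mul (plc_pow hB' _) (plc_pow hB'' _)) _)
      (plc_pow hB' _))
  intro e c ξ ψ ω x0 ψ0 g a0 i' X Ψ α dl v r ρ0 s hKEY hTay ha0 hψ0 hc hr hρ0 hρ1 hN hNf hNg hψ0v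
    h33 hcoef
  obtain ⟨ρ, hρe⟩ : ∃ ρ : Fin 2 → ℝ, ρ = ![ρ0, 1] := ⟨_, rfl⟩
  have hρ : ∀ j, 0 < ρ j ∧ ρ j ≤ 1 := by
    intro j
    rw [hρe]
    fin_cases j
    · exact ⟨hρ0, hρ1⟩
    · exact ⟨one_pos, le_rfl⟩
  have hM : ∀ j i, 1 ≤ Mv v (ξ j i) := fun j i => one_le_Mv v _
  have hM0 : ∀ i, 1 ≤ Mv v (x0 i) := fun i => one_le_Mv v _
  have hb := hB'.one_le v
  have hb0 : 0 < B' v := plc_pos hB' v
  have hB''1 := hB''.one_le v
  have hBv : 0 < B v := plc_pos hB v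
  obtain ⟨hfr, hcauchy⟩ := hF K v (Fin 2 × σ) r hr
  have hon : OnB W X Ψ (cn (MvPowerSeries (Fin 2 × σ) K) x0) (cn _ ψ0) :=
    ⟨hTay.on, fun i => by
      unfold cn
      rw [Bf_map, ← hψ0 i, map_pow]⟩
  have hk := hKEY v (MvPowerSeries (Fin 2 × σ) K) _ hfr X Ψ
    (fun j i => B' v * Mv v (ξ j i)) ρ0 s (B' v) hon hTay.rel
    (fun y hy => cancel (X 1) (ξ 1) a0 (hTay.cX 1) ha0 y hy)
    (fun j i => one_le_mul_of_one_le_of_one_le hb (hM j i)) hb hρ0 hρ1
    (fun j i => (hN j i).1)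
    (fun j i => hfr.mono _ _ _ (hN j i).2 (by
      have h1 := hM j i
      have h2 : 1 ≤ B' v ^ 2 := one_le_pow₀ hb
      have h3 : 0 ≤ B' v * Mv v (ξ j i) ^ 2 := by positivity
      calc B' v * Mv v (ξ j i) ^ 2 ≤ (B' v * Mv v (ξ j i) ^ 2) * B' v ^ 2 :=
            le_mul_of_one_le_right h3 h2
        _ = B' v * (B' v * Mv v (ξ j i)) ^ 2 := by ring))
    hψ0v hNf hNg hc (fun j i => decide (1 < v (ω j i)))
  rw [← hρe] at hk
  have hC := hcauchy _ _ α hk
  have hcf := hcoef (fun j i => decide (1 < v (ω j i)))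
  unfold PT at hcf
  rw [hcf, map_mul, map_prod] at hC
  have hnn := hfr.nonneg _ _ hk
  have hom : (∏ j, v (∏ i, if decide (1 < v (ω j i)) = true then ω j i ^ M else 1)) =
      ∏ j, ∏ i, Mv v (ω j i) ^ M := by
    refine Finset.prod_congr rfl fun j _ => ?_
    rw [map_prod]
    refine Finset.prod_congr rfl fun i _ => ?_
    by_cases h1 : 1 < v (ω j i)
    · simp only [h1, decide_true, if_true]
      rw [map_pow]
      unfold Mv
      rw [max_eq_right h1.le]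
    · simp only [h1, decide_false]
      unfold Mv
      rw [max_eq_left (not_lt.1 h1)]
      simp
  rw [hom] at hC
  have e2 : rpw r α = (∏ h : Fin 2 × σ, (1 / r h) ^ (α h))⁻¹ := by
    unfold rpw
    rw [Finsupp.prod_fintype _ _ (fun i => pow_zero _), ← Finset.prod_inv_distrib]
    apply Finset.prod_congr rfl
    intro i _
    rw [one_div, inv_pow, inv_inv]
  rw [e2] at hC
  have hP : 0 < ∏ h : Fin 2 × σ, (1 / r h) ^ (α h) := by
    apply Finset.prod_pos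
    intro i _
    have := hr i
    positivity
  have hkey := all_blk M 1 k0 e (B' v) (B'' v) ρ (fun j i => Mv v (ξ j i))
    (fun j i => max (v (lawP W e false ξ ψ x0 ψ0 j i).1) (v (lawP W e false ξ ψ x0 ψ0 j i).2))
    (fun j i => Mv v (ω j i)) (fun i => Mv v (x0 i)) hb hB''1 (fun j => (hρ j).1) hM hM0
    (fun j i => le_max_of_le_left (v.nonneg _)) (fun j i => one_le_Mv v _) h33
  have hO : 0 < ∏ j, ∏ i, Mv v (ω j i) ^ M := Finset.prod_pos fun j _ =>
    Finset.prod_pos fun i _ => pow_pos (lt_of_lt_of_le one_pos (one_le_Mv v _)) _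
  have hsq : 2 ≤ sqB e := by
    unfold sqB
    calc 2 = ∑ _j : Fin 2, 1 := by simp
      _ ≤ ∑ j, 4 ^ e j := Finset.sum_le_sum fun j _ => Nat.one_le_pow _ _ (by norm_num)
  have hkpos : 0 < keyV v M 1 k0 e (fun j i => B' v * Mv v (ξ j i)) ρ x0 := by
    unfold keyV
    apply mul_pos
    · apply Finset.prod_pos
      intro j _
      have h1 : 0 < ∏ i, B' v * Mv v (ξ j i) := Finset.prod_pos fun i _ => by
        have := hM j i
        positivity
      have := (hρ j).1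
      positivity
    · exact Finset.prod_pos fun i _ => by
        have := hM0 i
        positivity
  have hs : 0 ≤ s := by
    by_contra hlt
    push Not at hlt
    have : s * B' v ^ (4 * Fintype.card σ) * B v ^ sqB e *
        keyV v M 1 k0 e (fun j i => B' v * Mv v (ξ j i)) ρ x0 < 0 := by
      have h1 : 0 < B' v ^ (4 * Fintype.card σ) * B v ^ sqB e *
        keyV v M 1 k0 e (fun j i => B' v * Mv v (ξ j i)) ρ x0 := by positivity
      calc s * B' v ^ (4 * Fintype.card σ) * B v ^ sqB e *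
        keyV v M 1 k0 e (fun j i => B' v * Mv v (ξ j i)) ρ x0 =
          s * (B' v ^ (4 * Fintype.card σ) * B v ^ sqB e *
        keyV v M 1 k0 e (fun j i => B' v * Mv v (ξ j i)) ρ x0) := by ring
        _ < 0 := mul_neg_of_neg_of_pos hlt h1
    linarith
  unfold keyV at hC
  -- abbreviations
  obtain ⟨OO, hOO⟩ : ∃ OO, OO = ∏ j, ∏ i, Mv v (ω j i) ^ M := ⟨_, rfl⟩
  obtain ⟨PP, hPP⟩ : ∃ PP, PP = ∏ h : Fin 2 × σ, (1 / r h) ^ (α h) := ⟨_, rfl⟩
  obtain ⟨YY, hYY⟩ : ∃ YY, YY = ∏ j, ∏ i, (max (v (lawP W e false ξ ψ x0 ψ0 j i).1)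
          (v (lawP W e false ξ ψ x0 ψ0 j i).2)) ^ M * Mv v (ξ j i) ^ (4 ^ e j + 2) := ⟨_, rfl⟩
  obtain ⟨RR, hRR⟩ : ∃ RR, RR = ∏ j, ρ j ^ (k0 * 4 ^ e j) := ⟨_, rfl⟩
  obtain ⟨ZZ, hZZ⟩ : ∃ ZZ, ZZ = ∏ i, Mv v (x0 i) ^ 1 := ⟨_, rfl⟩
  obtain ⟨KK, hKK⟩ : ∃ KK, KK = (∏ j, ((∏ i, B' v * Mv v (ξ j i)) ^
      (2 * 4 ^ e j * M + 4 ^ e j + 2) * ρ j ^ (k0 * 4 ^ e j))) *
      ∏ i, Mv v (x0 i) ^ (2 * 2 * M + 1) := ⟨_, rfl⟩
  have hKp : 0 ≤ KK := by rw [hKK]; exact hkpos.le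
  rw [← hOO, ← hPP, ← hKK] at hC
  rw [← hOO] at hO
  rw [← hPP] at hP
  rw [← hKK, ← hOO, ← hYY, ← hRR, ← hZZ] at hkey
  have hR0 : ρ0 ^ (k0 * 4 ^ e 0) = RR := by
    rw [hRR, hρe, Fin.prod_univ_two]
    simp
  have hZ0 : ∏ i, Mv v (x0 i) = ZZ := by
    rw [hZZ]
    simp
  rw [← hYY, hR0, hZ0, ← hPP]
  have h3 : OO * v dl ≤ s * B' v ^ (4 * Fintype.card σ) * B v ^ sqB e * KK * PP := by
    have := mul_le_mul_of_nonneg_right hC hP.le
    rwa [mul_assoc, inv_mul_cancel₀ hP.ne', mul_one] at this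
  have h5 : B' v ^ (4 * Fintype.card σ) ≤ (B' v ^ (2 * Fintype.card σ)) ^ sqB e := by
    rw [← pow_mul]
    apply pow_le_pow_right₀ hb
    nlinarith [Nat.mul_le_mul_left (2 * Fintype.card σ) hsq]
  have hYp : 0 ≤ YY := by
    rw [hYY]
    exact Finset.prod_nonneg fun j _ => Finset.prod_nonneg fun i _ => by
      have h1 : 0 ≤ max (v (lawP W e false ξ ψ x0 ψ0 j i).1)
        (v (lawP W e false ξ ψ x0 ψ0 j i).2) := le_max_of_le_left (v.nonneg _)
      have := hM j i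
      positivity
  have hRp : 0 ≤ RR := by
    rw [hRR]
    exact Finset.prod_nonneg fun j _ => pow_nonneg (hρ j).1.le _
  have hZp : 0 ≤ ZZ := by
    rw [hZZ]
    exact Finset.prod_nonneg fun i _ => by
      have := hM0 i
      positivity
  refine le_of_mul_le_mul_left ?_ hO
  calc OO * v dl ≤ _ := h3
    _ ≤ s * (B' v ^ (2 * Fintype.card σ)) ^ sqB e * B v ^ sqB e *
        (((B' v ^ (2 * M + 3) * B'' v ^ M) ^ Fintype.card σ) ^ sqB e * (YY * (RR * OO)) * ZZ) *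
          PP := by
      gcongr
    _ = _ := by
      rw [mul_pow (B v), mul_pow ((B' v ^ (2 * M + 3) * B'' v ^ M) ^ Fintype.card σ)]
      ring

end Pool.Agent.Helper66.T3.LOC3
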